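import Pool.Agent.W187.CV.Artin
import Pool.Agent.W187.CV.All

/-!
# Leading coefficients of Artin L-series at `s = 0` from absolutely convergent sums over prime powers

Let `L/K` be a Galois extension of number fields with group `G`, `χ` a character of `G` and `S` a finite set
of places. The Artin L-series `L_S(s, χ)` is `exp ∑_{v ∉ S} ∑_{j ≥ 1} t_v(j) / (j Nv^{js})`, `Re s > 1`, `t_v(j)` the
trace of the `j`-th power of Frobenius on the inertia invariants, that is the mean of `χ` over `σ^j I_Q`.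

For the rotated kernel `K(u) = e^{icu} / Γ(1 + u)`, `c > π/2`, the sum
`E(X) = ∑_{v ∉ S} ∑_j t_v(j)/j K(j log Nv / log X)` converges absolutely and

`exp(E(X)) (e^{-Λ} log X)^r = L_S^*(0, χ) + O(1 / log X)`,

`r` the order and `L_S^*(0, χ)` the leading coefficient at `s = 0`, `Λ = ∫_0^∞ (e^{-t} - K(t)) dt/t`. Only the
continuation along the real half line is used (which is known, Brauer), no functional equation, no root
numbers or conductors, nothing about the zeros. So in Stark's conjecture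
`(R_S(χ, φ) / L_S^*(0, χ))^σ = R_S(χ^σ, φ) / L_S^*(0, χ^σ)` the leading coefficients can be replaced by these
limits, for every `L/K`, `χ`, `S`, `φ`, `σ`.
-/

set_option autoImplicit false

namespace Pool.Agent.Results.MP_46b841_nt.LeadingTermsFromFrobenius

open Pool.Agent.W187.UR Pool.Agent.W187.CV Filter Topology Asymptotics NumberField IsDedekindDomain

/-- **Leading coefficients of Artin L-series at `0` from Frobenius elements.** -/
theorem result (K L : Type) [Field K] [NumberField K] [Field L] [NumberField L] [Algebra K L]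
    (χ : Gal(L/K) → ℂ) (S : Set (HeightOneSpectrum (𝓞 K))) (t : HeightOneSpectrum (𝓞 K) → ℕ → ℂ)
    (ht : ∀ v ∉ S, ∃ (Q : Ideal (𝓞 L)) (f : Gal(L/K)), IsFrob v Q f ∧ ∀ j, t v j = artinTrace χ Q f j)
    (F : ℂ → ℂ) (hF : ∀ s : ℂ, 1 < s.re → F s = Complex.exp (logLK S t s))
    (hm : ∀ x : ℝ, 0 ≤ x → MeromorphicAt F x) :
    (∀ c X : ℝ, 1 < X → Summable fun x => ‖rtermK S t c X x‖) ∧
    ∃ r : ℤ, meromorphicOrderAt F 0 = r ∧ meromorphicTrailingCoeffAt F 0 ≠ 0 ∧
      ∀ c : ℝ, Real.pi / 2 < c →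
        (fun X : ℝ => Complex.exp (rsumK S t c X) * (Complex.exp (-Lam c) * Real.log X) ^ r -
          meromorphicTrailingCoeffAt F 0) =O[atTop] (fun X : ℝ => 1 / Real.log X) ∧
        ∀ (σ : ℂ ≃+* ℂ) (F' : ℂ → ℂ),
          (∀ s : ℂ, 1 < s.re → F' s = Complex.exp (logLK S (fun v j => σ (t v j)) s)) →
          (∀ x : ℝ, 0 ≤ x → MeromorphicAt F' x) →
          ∃ r' : ℤ, meromorphicOrderAt F' 0 = r' ∧ meromorphicTrailingCoeffAt F' 0 ≠ 0 ∧
            ∀ R R' : ℂ, (σ (R / meromorphicTrailingCoeffAt F 0) =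
                R' / meromorphicTrailingCoeffAt F' 0 ↔
              Tendsto (fun X : ℝ => R' / (Complex.exp (rsumK S (fun v j => σ (t v j)) c X) *
                (Complex.exp (-Lam c) * Real.log X) ^ r')) atTop
                (𝓝 (σ (R / meromorphicTrailingCoeffAt F 0)))) := by
  have hPT : S_POINT := point_all
  have hA : S_ABS := Pool.Agent.W125.CV.absc
  have hN : S_NF := Pool.Agent.W684.CV.nfs
  have hlogc : Tendsto (fun X : ℝ => 1 / Real.log X) atTop (𝓝 0) :=
    tendsto_const_nhds.div_atTop Real.tendsto_log_atTop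
  have hb : ∀ v ∉ S, ∀ j : ℕ, ‖t v j‖ ≤ ∑ g : Gal(L/K), ‖χ g‖ := by
    intro v hv j
    obtain ⟨Q, f, -, h⟩ := ht v hv
    rw [h j]
    exact norm_artinTrace_le χ Q f j
  obtain ⟨r, h1, h2, h3⟩ := law_k hPT hN hb hF hm
  refine ⟨fun c X hX => rtermK_summable hN hA hb c hX, r, h1, h2, fun c hc => ⟨h3 c hc, ?_⟩⟩
  intro σ F' hF' hm'
  have hb' : ∀ v ∉ S, ∀ j : ℕ, ‖σ (t v j)‖ ≤ ∑ g : Gal(L/K), ‖σ (χ g)‖ := by
    intro v hv j
    obtain ⟨Q, f, -, h⟩ := ht v hv
    rw [h j]
    have h5 : σ (artinTrace χ Q f j) = artinTrace (fun g => σ (χ g)) Q f j := by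
      unfold artinTrace
      rw [map_div₀, map_sum, map_natCast]
      congr 1
      refine Finset.sum_congr rfl fun i _ => ?_
      split_ifs
      · rfl
      · exact map_zero σ
    rw [h5]
    exact norm_artinTrace_le (fun g => σ (χ g)) Q f j
  obtain ⟨r', h1', h2', h3'⟩ := law_k hPT hN hb' hF' hm'
  refine ⟨r', h1', h2', fun R R' => ?_⟩
  have hlim : Tendsto (fun X : ℝ => R' / (Complex.exp (rsumK S (fun v j => σ (t v j)) c X) *
      (Complex.exp (-Lam c) * Real.log X) ^ r')) atTop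
      (𝓝 (R' / meromorphicTrailingCoeffAt F' 0)) :=
    tendsto_const_nhds.div
      (tendsto_sub_nhds_zero_iff.1 ((h3' c hc).trans_tendsto hlogc)) h2'
  constructor
  · intro h
    rw [h]
    exact hlim
  · intro h
    exact tendsto_nhds_unique h hlim

end Pool.Agent.Results.MP_46b841_nt.LeadingTermsFromFrobenius
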